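import Pool.Agent.KS6_76.SNE.Main

/-!
# Symmetric equilibria are `PPAD`-hard to find in symmetric games that are zero-sum except on two
pairs of strategies
-/

namespace Pool.Agent.Results.MP_226422_lc.NearZeroSumHard

open Pool.Agent.H424R2.PPAD Pool.Agent.H424R2.SG Pool.Agent.KS6_76.SNE Matrix

/-- Finding a symmetric Nash equilibrium of `(A, Aᵀ)` is `PPAD`-hard for the square integer
matrices `A` with `A + Aᵀ = c (u uᵀ + v vᵀ)`, where `c > 0` and `u`, `v` are the characteristic
vectors of two disjoint pairs of strategies.  For all these `A` the matrix `A + Aᵀ` is positive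
semidefinite of rank exactly two; hence `SymNE r` is `PPAD`-hard for every `r ≥ 2`. -/
theorem result :
    PPADHard SymNEnear ∧
    (∀ A, SymNEnear.Valid A →
      (mat A + (mat A)ᵀ).PosSemidef ∧ (mat A + (mat A)ᵀ).rank = 2) ∧
    ∀ r : ℕ, 2 ≤ r → PPADHard (SymNE r) :=
  ⟨near_hard, rank_two, all_hard⟩

end Pool.Agent.Results.MP_226422_lc.NearZeroSumHard
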